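import Mathlib

/-!
# The Mason lemma at one valuation ring

`h` monic of degree `r ≥ 3`, `h ∣ h^D + h' q`: if `D z`, `D log h(z)` are bounded by `Δ⁻¹` then
`H = (D z - q(z)) / h(z)` and `z H` are bounded by `Δ⁻²`.
-/

set_option autoImplicit false

namespace Pool.Agent.Helper74.LG

open Polynomial

section
variable {E : Type*} [Field E]

/-- `h^D`: the derivation is applied to the coefficients. -/
noncomputable def dc (D : Derivation ℤ E E) (f : E[X]) : E[X] := f.sum fun n a => monomial n (D a)

lemma dc_add (D : Derivation ℤ E E) (f g : E[X]) : dc D (f + g) = dc D f + dc D g := by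
  unfold dc
  exact Polynomial.sum_add_index f g _ (fun i => by simp) fun i a b => by simp

lemma dc_monomial (D : Derivation ℤ E E) (n : ℕ) (a : E) :
    dc D (monomial n a) = monomial n (D a) := by
  unfold dc
  exact Polynomial.sum_monomial_index a _ (by simp)

lemma dc_coeff (D : Derivation ℤ E E) (f : E[X]) (i : ℕ) : (dc D f).coeff i = D (f.coeff i) := by
  induction f using Polynomial.induction_on' with
  | add p q hp hq => rw [dc_add, coeff_add, coeff_add, hp, hq, map_add]
  | monomial n a =>
    rw [dc_monomial, coeff_monomial, coeff_monomial]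
    split_ifs
    · rfl
    · rw [map_zero]

theorem D_eval (D : Derivation ℤ E E) (f : E[X]) (z : E) :
    D (f.eval z) = (dc D f).eval z + (derivative f).eval z * D z := by
  induction f using Polynomial.induction_on' with
  | add p q hp hq =>
    rw [dc_add, eval_add, map_add, hp, hq, derivative_add, eval_add, eval_add]
    ring
  | monomial n a =>
    rw [dc_monomial, derivative_monomial, eval_monomial, eval_monomial, eval_monomial,
      Derivation.leibniz, Derivation.leibniz_pow]
    simp only [smul_eq_mul, nsmul_eq_mul]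
    ring

lemma eval_reflect {v z : E} (hvz : v * z = 1) (N : ℕ) (f : E[X]) (hf : f.natDegree ≤ N) :
    (reflect N f).eval v = v ^ N * f.eval z := by
  refine Polynomial.induction_with_natDegree_le
    (fun f => (reflect N f).eval v = v ^ N * f.eval z) N ?_ ?_ ?_ f hf
  · simp
  · intro n a _ hn
    rw [reflect_C_mul_X_pow, revAt_le hn]
    simp only [eval_mul, eval_C, eval_pow, eval_X]
    have h1 : v ^ N = v ^ (N - n) * v ^ n := by rw [← pow_add, Nat.sub_add_cancel hn]
    have h2 : v ^ n * z ^ n = 1 := by rw [← mul_pow, hvz, one_pow]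
    rw [h1]
    linear_combination (-a * v ^ (N - n)) * h2
  · intro f g _ _ hf hg
    rw [reflect_add, eval_add, eval_add, hf, hg]
    ring

lemma eval_derivative_reflect {v z : E} (hvz : v * z = 1) (N : ℕ) (f : E[X])
    (hf : f.natDegree ≤ N) :
    v ^ 2 * (derivative (reflect N f)).eval v =
      N * v ^ (N + 1) * f.eval z - v ^ N * (derivative f).eval z := by
  refine Polynomial.induction_with_natDegree_le
    (fun f => v ^ 2 * (derivative (reflect N f)).eval v =
      N * v ^ (N + 1) * f.eval z - v ^ N * (derivative f).eval z) N ?_ ?_ ?_ f hf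
  · simp
  · intro n a _ hn
    have h1 : v ^ N = v ^ (N - n) * v ^ n := by rw [← pow_add, Nat.sub_add_cancel hn]
    have h2 : v ^ n * z ^ n = 1 := by rw [← mul_pow, hvz, one_pow]
    rw [reflect_C_mul_X_pow, revAt_le hn, derivative_C_mul_X_pow, derivative_C_mul_X_pow]
    simp only [eval_mul, eval_C, eval_pow, eval_X]
    have e1 : v ^ 2 * (a * ((N - n : ℕ) : E) * v ^ (N - n - 1)) =
        a * ((N : E) - n) * v ^ (N - n) * v := by
      rw [Nat.cast_sub hn]
      rcases Nat.eq_zero_or_pos (N - n) with h0 | h0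
      · have h3 : (N : E) - n = 0 := by
          rw [← Nat.cast_sub hn, h0, Nat.cast_zero]
        rw [h3]
        ring
      · have h3 : v ^ (N - n) = v ^ (N - n - 1) * v := by
          rw [← pow_succ, Nat.sub_add_cancel h0]
        rw [h3]
        ring
    have e2 : v ^ n * (a * (n : E) * z ^ (n - 1)) = a * n * v := by
      rcases Nat.eq_zero_or_pos n with h0 | h0
      · rw [h0]
        simp
      · have h3 : v ^ n = v ^ (n - 1) * v := by
          rw [← pow_succ, Nat.sub_add_cancel h0]
        have h4 : v ^ (n - 1) * z ^ (n - 1) = 1 := by rw [← mul_pow, hvz, one_pow]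
        rw [h3]
        linear_combination (a * n * v) * h4
    rw [e1, pow_succ, h1]
    linear_combination (-(N : E) * v ^ (N - n) * v * a) * h2 + (v ^ (N - n)) * e2
  · intro f g _ _ hf hg
    rw [reflect_add, derivative_add, eval_add, eval_add, derivative_add, eval_add, mul_add, hf, hg]
    ring

/-- A polynomial with bounded coefficients has bounded values at integral elements. -/
lemma eval_mem (O : ValuationSubring E) (Δ : E) (f : E[X]) (hf : ∀ i, Δ * f.coeff i ∈ O) (z : E)
    (hz : z ∈ O) : Δ * f.eval z ∈ O := by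
  rw [eval_eq_sum_range, Finset.mul_sum]
  refine O.toSubring.sum_mem fun i _ => ?_
  have h1 := O.mul_mem _ _ (hf i) (pow_mem hz i)
  rw [mul_assoc] at h1
  exact h1

/-- The same for `v^N f(z)`, `v z = 1`, `v` integral. -/
lemma eval_mem_inv (O : ValuationSubring E) (Δ : E) (f : E[X]) (hf : ∀ i, Δ * f.coeff i ∈ O)
    {v z : E} (hvz : v * z = 1) (hv : v ∈ O) (N : ℕ) (hN : f.natDegree ≤ N) :
    Δ * (v ^ N * f.eval z) ∈ O := by
  rw [← eval_reflect hvz N f hN]
  refine eval_mem O Δ _ (fun i => ?_) v hv
  rw [coeff_reflect]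
  exact hf _

/-- The remainder polynomial at infinity has small degree. -/
lemma natDegree_tail (D : Derivation ℤ E E) (r : ℕ) (hr : 2 ≤ r) (h q s : E[X]) (hm : h.Monic)
    (hd : h.natDegree = r) (hq : q.natDegree < r) (hs : dc D h + derivative h * q = h * s) :
    ((r : E[X]) * q - X * s).natDegree ≤ r - 2 := by
  by_cases ht : (r : E[X]) * q - X * s = 0
  · rw [ht, natDegree_zero]
    exact Nat.zero_le _
  have h1 : ((r : E[X]) * h - X * derivative h) * q - X * dc D h =
      h * ((r : E[X]) * q - X * s) := by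
    linear_combination (-X) * hs
  have h2 : ((r : E[X]) * h - X * derivative h).natDegree ≤ r - 1 := by
    rw [natDegree_le_iff_coeff_eq_zero]
    intro N hN
    have h3 : ((r : E[X]) * h).coeff N = r * h.coeff N := by
      rw [← C_eq_natCast, coeff_C_mul]
    obtain ⟨M, rfl⟩ : ∃ M, N = M + 1 := ⟨N - 1, by omega⟩
    rw [coeff_sub, h3, coeff_X_mul, coeff_derivative]
    rcases lt_or_ge r (M + 1) with h4 | h4
    · rw [coeff_eq_zero_of_natDegree_lt (by omega : h.natDegree < M + 1)]
      ring
    · have h5 : r = M + 1 := by omega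
      rw [h5]
      push_cast
      ring
  have h3 : (dc D h).natDegree ≤ r - 1 := by
    rw [natDegree_le_iff_coeff_eq_zero]
    intro N hN
    rw [dc_coeff]
    rcases lt_or_ge r N with h4 | h4
    · rw [coeff_eq_zero_of_natDegree_lt (by omega), map_zero]
    · have h5 : N = h.natDegree := by omega
      rw [h5, hm.coeff_natDegree]
      exact D.map_one_eq_zero
  have h4 : (h * ((r : E[X]) * q - X * s)).natDegree ≤ 2 * r - 2 := by
    rw [← h1]
    refine (natDegree_sub_le _ _).trans (max_le ?_ ?_)
    · refine natDegree_mul_le.trans ?_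
      omega
    · refine natDegree_mul_le.trans ?_
      rw [natDegree_X]
      omega
  rw [natDegree_mul hm.ne_zero ht, hd] at h4
  omega

/-- **Mason's lemma at one valuation ring.** -/
theorem mason_key (D : Derivation ℤ E E) (r : ℕ) (hr : 3 ≤ r) (h q s α β α' β' : E[X])
    (hm : h.Monic) (hd : h.natDegree = r) (hab : α * h + β * derivative h = 1)
    (hab' : α' * h.reverse + β' * derivative h.reverse = 1) (hq : q.natDegree < r)
    (hs : dc D h + derivative h * q = h * s) (z : E) (hz : h.eval z ≠ 0) (O : ValuationSubring E)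
    (Δ : E) (hD : ∀ f ∈ O, Δ * D f ∈ O) (cq : ∀ i, Δ * q.coeff i ∈ O)
    (cs : ∀ i, Δ * s.coeff i ∈ O) (cα : ∀ i, Δ * α.coeff i ∈ O) (cβ : ∀ i, Δ * β.coeff i ∈ O)
    (cα' : ∀ i, Δ * α'.coeff i ∈ O) (cβ' : ∀ i, Δ * β'.coeff i ∈ O)
    (h1 : z ∈ O → Δ * (D (h.eval z) / h.eval z) ∈ O)
    (h2 : z ≠ 0 → z⁻¹ ∈ O → Δ * (D (h.reverse.eval z⁻¹) / h.reverse.eval z⁻¹) ∈ O) :
    Δ ^ 2 * ((D z - q.eval z) / h.eval z) ∈ O ∧
      Δ ^ 2 * (z * ((D z - q.eval z) / h.eval z)) ∈ O := by
  set H := (D z - q.eval z) / h.eval z with hH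
  have hHe : H * h.eval z = D z - q.eval z := by
    rw [hH]
    exact div_mul_cancel₀ _ hz
  have hse : (dc D h).eval z + (derivative h).eval z * q.eval z = h.eval z * s.eval z := by
    have := congrArg (eval z) hs
    simpa using this
  have hDh := D_eval D h z
  have hlog : D (h.eval z) / h.eval z = s.eval z + (derivative h).eval z * H := by
    rw [div_eq_iff hz, hDh]
    linear_combination hse - (derivative h).eval z * hHe
  by_cases hzO : z ∈ O
  · have e1 : α.eval z * h.eval z + β.eval z * (derivative h).eval z = 1 := by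
      have := congrArg (eval z) hab
      simpa using this
    have e2 : Δ ^ 2 * H = (Δ * α.eval z) * (Δ * D z - Δ * q.eval z) +
        (Δ * β.eval z) * (Δ * (D (h.eval z) / h.eval z) - Δ * s.eval z) := by
      rw [hlog]
      linear_combination (-Δ ^ 2 * H) * e1 + (Δ ^ 2 * α.eval z) * hHe
    have e3 : Δ ^ 2 * H ∈ O := by
      rw [e2]
      refine O.add_mem _ _ (O.mul_mem _ _ (eval_mem O Δ α cα z hzO)
        (O.toSubring.sub_mem (hD z hzO) (eval_mem O Δ q cq z hzO)))
        (O.mul_mem _ _ (eval_mem O Δ β cβ z hzO)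
        (O.toSubring.sub_mem (h1 hzO) (eval_mem O Δ s cs z hzO)))
    refine ⟨e3, ?_⟩
    have e4 : Δ ^ 2 * (z * H) = z * (Δ ^ 2 * H) := by ring
    rw [e4]
    exact O.mul_mem _ _ hzO e3
  · have hz0 : z ≠ 0 := fun h0 => hzO (h0 ▸ O.zero_mem)
    have hv : z⁻¹ ∈ O := (O.mem_or_inv_mem z).resolve_left hzO
    obtain ⟨m, rfl⟩ : ∃ m, r = m + 3 := ⟨r - 3, by omega⟩
    set v := z⁻¹ with hvdef
    have hvz : v * z = 1 := inv_mul_cancel₀ hz0
    have hv0 : v ≠ 0 := left_ne_zero_of_mul_eq_one hvz
    have hrev : h.reverse = reflect (m + 3) h := by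
      rw [← hd]
      rfl
    have e1 : α'.eval v * h.reverse.eval v + β'.eval v * (derivative h.reverse).eval v = 1 := by
      have := congrArg (eval v) hab'
      simpa using this
    have e2 : h.reverse.eval v = v ^ (m + 3) * h.eval z := by
      rw [hrev]
      exact eval_reflect hvz _ _ hd.le
    have e3 : (derivative h.reverse).eval v =
        v ^ (m + 1) * (((m + 3 : ℕ) : E) * v * h.eval z - (derivative h).eval z) := by
      have h3 := eval_derivative_reflect hvz (m + 3) h hd.le
      rw [← hrev] at h3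
      have h4 : v ^ 2 ≠ 0 := pow_ne_zero 2 hv0
      apply mul_left_cancel₀ h4
      rw [h3]
      ring
    have e4 : D v = -(v ^ 2 * D z) := by
      have h3 : D (v * z) = 0 := by
        rw [hvz]
        exact D.map_one_eq_zero
      rw [Derivation.leibniz, smul_eq_mul, smul_eq_mul] at h3
      have h4 : v * (v * D z + z * D v) = 0 := by rw [h3, mul_zero]
      linear_combination h4 - (D v) * hvz
    have e5 : D (h.reverse.eval v) / h.reverse.eval v =
        -(((m + 3 : ℕ) : E) * v * D z) + D (h.eval z) / h.eval z := by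
      rw [e2, Derivation.leibniz, Derivation.leibniz_pow, e4]
      simp only [smul_eq_mul, nsmul_eq_mul]
      have h3 : m + 3 - 1 = m + 2 := rfl
      rw [h3]
      field_simp
      ring
    have ht := natDegree_tail D (m + 3) (by omega) h q s hm hd hq hs
    have ct : ∀ i, Δ * (((m + 3 : ℕ) : E[X]) * q - X * s).coeff i ∈ O := by
      intro i
      rw [coeff_sub, ← C_eq_natCast, coeff_C_mul, mul_sub]
      refine O.toSubring.sub_mem ?_ ?_
      · have h3 := O.mul_mem _ _ (natCast_mem O (m + 3)) (cq i)
        rw [mul_left_comm] at h3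
        exact h3
      · rcases i with _ | i
        · rw [coeff_X_mul_zero, mul_zero]
          exact O.zero_mem
        · rw [coeff_X_mul]
          exact cs i
    have h6 := eval_mem_inv O Δ _ ct hvz hv (m + 1) (by omega)
    have h7 := eval_mem_inv O Δ q cq hvz hv (m + 2) (by omega)
    have h8 := h2 hz0 hv
    have e6 : Δ ^ 2 * (z * H) = -((Δ * α'.eval v) * (v ^ m * (Δ * D v) +
        Δ * (v ^ (m + 2) * q.eval z))) - (Δ * β'.eval v) * (v ^ m *
        (Δ * (D (h.reverse.eval v) / h.reverse.eval v)) +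
        Δ * (v ^ (m + 1) * (((m + 3 : ℕ) : E[X]) * q - X * s).eval z)) := by
      rw [e5, hlog, e4]
      rw [e2, e3] at e1
      simp only [eval_sub, eval_mul, eval_X, eval_natCast]
      linear_combination (-Δ ^ 2 * z * H) * e1 +
        (Δ ^ 2 * α'.eval v * v ^ (m + 2) * H * h.eval z +
          Δ ^ 2 * β'.eval v * (((m + 3 : ℕ) : E) * v ^ (m + 1) * H * h.eval z -
            (derivative h).eval z * H * v ^ m - v ^ m * s.eval z)) * hvz +
        (Δ ^ 2 * α'.eval v * v ^ (m + 2) +
          Δ ^ 2 * β'.eval v * ((m + 3 : ℕ) : E) * v ^ (m + 1)) * hHe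
    have e7 : Δ ^ 2 * (z * H) ∈ O := by
      rw [e6]
      have hvm : v ^ m ∈ O := pow_mem hv m
      refine O.toSubring.sub_mem (O.neg_mem _ (O.mul_mem _ _ (eval_mem O Δ α' cα' v hv)
        (O.add_mem _ _ (O.mul_mem _ _ hvm (hD v hv)) h7)))
        (O.mul_mem _ _ (eval_mem O Δ β' cβ' v hv)
        (O.add_mem _ _ (O.mul_mem _ _ hvm h8) h6))
    refine ⟨?_, e7⟩
    have e8 : Δ ^ 2 * H = v * (Δ ^ 2 * (z * H)) := by
      linear_combination (-Δ ^ 2 * H) * hvz
    rw [e8]
    exact O.mul_mem _ _ hv e7

lemma D_inv (D : Derivation ℤ E E) {v z : E} (hvz : v * z = 1) : D v = -(v ^ 2 * D z) := by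
  have h3 : D (v * z) = 0 := by
    rw [hvz]
    exact D.map_one_eq_zero
  rw [Derivation.leibniz, smul_eq_mul, smul_eq_mul] at h3
  have h4 : v * (v * D z + z * D v) = 0 := by rw [h3, mul_zero]
  linear_combination h4 - (D v) * hvz

/-- If `D z = q(z)` with `deg q ≥ 3` then the leading coefficient of `q` times `z` is bounded. -/
theorem tail_key (D : Derivation ℤ E E) (q : E[X]) (hq : 3 ≤ q.natDegree) (z : E)
    (hz : D z = q.eval z) (O : ValuationSubring E) (Δ : E) (hD : ∀ f ∈ O, Δ * D f ∈ O)
    (cq : ∀ i, Δ * q.coeff i ∈ O) : Δ * (q.leadingCoeff * z) ∈ O := by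
  by_cases hzO : z ∈ O
  · rw [← mul_assoc]
    exact O.mul_mem _ _ (cq _) hzO
  · have hz0 : z ≠ 0 := fun h0 => hzO (h0 ▸ O.zero_mem)
    have hv : z⁻¹ ∈ O := (O.mem_or_inv_mem z).resolve_left hzO
    obtain ⟨m, hm⟩ : ∃ m, q.natDegree = m + 3 := ⟨q.natDegree - 3, by omega⟩
    set v := z⁻¹ with hvdef
    have hvz : v * z = 1 := inv_mul_cancel₀ hz0
    have e1 : q.eval z = q.eraseLead.eval z + q.leadingCoeff * z ^ (m + 3) := by
      conv_lhs => rw [← eraseLead_add_C_mul_X_pow q]
      rw [hm]
      simp
    have c1 : ∀ i, Δ * q.eraseLead.coeff i ∈ O := by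
      intro i
      rw [eraseLead_coeff]
      split_ifs
      · rw [mul_zero]
        exact O.zero_mem
      · exact cq i
    have h1 := eval_mem_inv O Δ q.eraseLead c1 hvz hv (m + 2) (by
      have := eraseLead_natDegree_le q
      omega)
    have h2 := D_inv D hvz
    have h3 : v ^ (m + 2) * z ^ (m + 2) = 1 := by rw [← mul_pow, hvz, one_pow]
    have e2 : Δ * (q.leadingCoeff * z) =
        -(v ^ m * (Δ * D v)) - Δ * (v ^ (m + 2) * q.eraseLead.eval z) := by
      rw [h2, hz, e1]
      linear_combination (-Δ * q.leadingCoeff * z) * h3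
    rw [e2]
    exact O.toSubring.sub_mem (O.neg_mem _ (O.mul_mem _ _ (pow_mem hv m) (hD v hv))) h1

lemma reflect_derivative (N : ℕ) (f : E[X]) (hf : f.natDegree ≤ N) :
    reflect N (derivative f) =
      (N : E[X]) * X * reflect N f - X ^ 2 * derivative (reflect N f) := by
  refine Polynomial.induction_with_natDegree_le
    (fun f => reflect N (derivative f) =
      (N : E[X]) * X * reflect N f - X ^ 2 * derivative (reflect N f)) N ?_ ?_ ?_ f hf
  · simp
  · intro n a _ hn
    rw [reflect_C_mul_X_pow, revAt_le hn, derivative_C_mul_X_pow, derivative_C_mul_X_pow]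
    have e1 : (X : E[X]) ^ 2 * (C (a * ((N - n : ℕ) : E)) * X ^ (N - n - 1)) =
        C a * ((N : E[X]) - (n : E[X])) * X ^ (N - n) * X := by
      rcases Nat.eq_zero_or_pos (N - n) with h0 | h0
      · have h3 : (N : E[X]) - (n : E[X]) = 0 := by
          rw [← Nat.cast_sub hn, h0, Nat.cast_zero]
        rw [h3, h0]
        simp
      · have h3 : (X : E[X]) ^ (N - n) = X ^ (N - n - 1) * X := by
          rw [← pow_succ, Nat.sub_add_cancel h0]
        rw [h3, C_mul, C_eq_natCast, Nat.cast_sub hn]
        ring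
    rw [e1]
    rcases Nat.eq_zero_or_pos n with h0 | h0
    · rw [h0]
      simp
      ring
    · have h4 : n - 1 ≤ N := by omega
      rw [reflect_C_mul_X_pow, revAt_le h4]
      have h5 : N - (n - 1) = N - n + 1 := by omega
      rw [h5, C_mul, C_eq_natCast]
      ring
  · intro f g _ _ hf hg
    rw [derivative_add, reflect_add, reflect_add, derivative_add, hf, hg]
    ring

theorem coprime_reverse (h : E[X]) (hm : h.Monic) (hsep : IsCoprime h (derivative h)) :
    IsCoprime h.reverse (derivative h.reverse) := by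
  obtain ⟨α, β, hab⟩ := hsep
  set r := h.natDegree with hr
  set n := max α.natDegree β.natDegree with hn
  have h1 := congrArg (reflect (n + r)) hab
  have h2 : (derivative h).natDegree ≤ r := (natDegree_derivative_le h).trans (Nat.sub_le _ _)
  rw [reflect_add, reflect_mul α h (le_max_left _ _) le_rfl,
    reflect_mul β (derivative h) (le_max_right _ _) h2, reflect_one, reflect_derivative r h le_rfl]
    at h1
  have hrev : h.reverse = reflect r h := rfl
  rw [← hrev] at h1
  have h3 : IsCoprime h.reverse (X ^ (n + r)) := by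
    refine IsCoprime.pow_right ?_
    have h4 : h.reverse.coeff 0 = 1 := by
      rw [coeff_zero_reverse]
      exact hm
    refine ⟨1, -h.reverse.divX, ?_⟩
    have h5 := divX_mul_X_add h.reverse
    rw [h4, C_1] at h5
    linear_combination -h5
  obtain ⟨c, d, hcd⟩ := h3
  refine ⟨c + d * (reflect n α + (r : E[X]) * X * reflect n β), -(d * X ^ 2 * reflect n β), ?_⟩
  linear_combination hcd + d * h1

/-- The polynomials `q`, `s` with `h^D + h' q = h s`, `deg q < deg h`. -/
theorem exists_qs (D : Derivation ℤ E E) (h : E[X]) (hm : h.Monic) (h1 : h ≠ 1)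
    (hsep : IsCoprime h (derivative h)) :
    ∃ q s : E[X], q.natDegree < h.natDegree ∧ dc D h + derivative h * q = h * s := by
  obtain ⟨α, β, hab⟩ := hsep
  refine ⟨(-(β * dc D h)) %ₘ h, α * dc D h - derivative h * ((-(β * dc D h)) /ₘ h), ?_, ?_⟩
  · exact natDegree_modByMonic_lt _ hm h1
  · have h2 := modByMonic_add_div (-(β * dc D h)) h
    linear_combination (derivative h) * h2 - (dc D h) * hab

end

end Pool.Agent.Helper74.LG
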