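import Pool.Agent.Helper11.TS.SubA
import Pool.Agent.Helper11.TS.PF

/-!
# The S-unit equation `u + v = 1` over a number field

From the parametric Subspace theorem in dimension two (`subspaceT`): at every embedding take the
two smaller ones among `u`, `v`, `1`. The product of all their sizes is `1 / H`, where `H` is the
product over all embeddings of the maxima of `|u|`, `|v|`, `1`.
-/

set_option autoImplicit false

namespace Pool.Agent.Helper74.LG

open NumberField Pool.Agent.Helper85.Sub Pool.Agent.Helper10.Sub Pool.Agent.Helper11.TS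

section pat
variable {R : Type*} [CommRing R]

/-- The forms `X₁, X₀ + X₁`, resp. `X₀, X₀ + X₁`, resp. `X₀, X₁`. -/
def pat (R : Type*) [CommRing R] (c : Fin 3) : Matrix (Fin 2) (Fin 2) R :=
  if c = 0 then !![0, 1; 1, 1] else if c = 1 then !![1, 0; 1, 1] else !![1, 0; 0, 1]

lemma pat_det (R : Type*) [CommRing R] (c : Fin 3) :
    (pat R c).det = 1 ∨ (pat R c).det = -1 := by
  unfold pat
  split_ifs
  · right
    simp [Matrix.det_fin_two]
  · left
    simp [Matrix.det_fin_two]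
  · left
    simp [Matrix.det_fin_two]

lemma pat_det_ne (R : Type*) [CommRing R] [Nontrivial R] (c : Fin 3) : (pat R c).det ≠ 0 := by
  rcases pat_det R c with h | h
  · rw [h]
    exact one_ne_zero
  · rw [h]
    exact neg_ne_zero.2 one_ne_zero

lemma pat_mem (R : Type*) [CommRing R] (c : Fin 3) (i j : Fin 2) :
    pat R c i j = 0 ∨ pat R c i j = 1 := by
  unfold pat
  split_ifs <;> fin_cases i <;> fin_cases j <;> simp

lemma pat_alg (F : Type*) [Field F] [Algebra ℚ F] (c : Fin 3) (i j : Fin 2) :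
    IsAlgebraic ℚ (pat F c i j) := by
  rcases pat_mem F c i j with h | h
  · rw [h]
    exact isAlgebraic_zero
  · rw [h]
    exact isAlgebraic_one

/-- The choice of the two smaller values among `a`, `b`, `1 = a + b`. -/
lemma exists_pat {F : Type*} [NormedField F] (w : Fin 2 → F) (hw : w 0 + w 1 = 1) :
    ∃ c : Fin 3, (∏ i, ‖∑ j, pat F c i j * w j‖) * max (max ‖w 0‖ ‖w 1‖) 1 = ‖w 0‖ * ‖w 1‖ ∧
      ∀ i, ∑ j, pat F c i j * w j = w 0 ∨ ∑ j, pat F c i j * w j = w 1 ∨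
        ∑ j, pat F c i j * w j = 1 := by
  have h0 : ∀ i, ∑ j, pat F 0 i j * w j = if i = 0 then w 1 else 1 := by
    intro i
    rw [Fin.sum_univ_two]
    fin_cases i
    · simp [pat]
    · simp [pat, hw]
  have h1 : ∀ i, ∑ j, pat F 1 i j * w j = if i = 0 then w 0 else 1 := by
    intro i
    rw [Fin.sum_univ_two]
    fin_cases i
    · simp [pat]
    · simp [pat, hw]
  have h2 : ∀ i, ∑ j, pat F 2 i j * w j = if i = 0 then w 0 else w 1 := by
    intro i
    rw [Fin.sum_univ_two]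
    fin_cases i
    · simp [pat]
    · simp [pat]
  by_cases ha : ‖w 1‖ ≤ ‖w 0‖ ∧ 1 ≤ ‖w 0‖
  · refine ⟨0, ?_, fun i => ?_⟩
    · rw [Fin.prod_univ_two, h0, h0, max_eq_left ha.1, max_eq_left ha.2]
      simp
      ring
    · rw [h0]
      by_cases hi : i = 0
      · right
        left
        rw [if_pos hi]
      · right
        right
        rw [if_neg hi]
  by_cases hb : ‖w 0‖ ≤ ‖w 1‖ ∧ 1 ≤ ‖w 1‖
  · refine ⟨1, ?_, fun i => ?_⟩
    · rw [Fin.prod_univ_two, h1, h1, max_eq_right hb.1, max_eq_left hb.2]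
      simp
    · rw [h1]
      by_cases hi : i = 0
      · left
        rw [if_pos hi]
      · right
        right
        rw [if_neg hi]
  have hc : ‖w 0‖ ≤ 1 ∧ ‖w 1‖ ≤ 1 := by
    rcases le_total ‖w 0‖ ‖w 1‖ with h | h
    · have h3 : ¬ 1 ≤ ‖w 1‖ := fun h4 => hb ⟨h, h4⟩
      have h4 := (not_le.1 h3).le
      exact ⟨h.trans h4, h4⟩
    · have h3 : ¬ 1 ≤ ‖w 0‖ := fun h4 => ha ⟨h, h4⟩
      have h4 := (not_le.1 h3).le
      exact ⟨h4, h.trans h4⟩
  refine ⟨2, ?_, fun i => ?_⟩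
  · rw [Fin.prod_univ_two, h2, h2, max_eq_right (max_le hc.1 hc.2)]
    simp
  · rw [h2]
    by_cases hi : i = 0
    · left
      rw [if_pos hi]
    · right
      left
      rw [if_neg hi]

end pat

/-- Bounds for the sizes from the product formula. -/
lemma sizes {ι : Type*} [Fintype ι] [DecidableEq ι] (f g : ι → ℝ) (hf : ∀ i, 0 < f i)
    (hfp : ∏ i, f i = 1) (i : ι) :
    1 ≤ ∏ j, max (max (f j) (g j)) 1 ∧ f i ≤ ∏ j, max (max (f j) (g j)) 1 ∧
      (∏ j, max (max (f j) (g j)) 1)⁻¹ ≤ f i := by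
  have h1 : ∀ j, 1 ≤ max (max (f j) (g j)) 1 := fun j => le_max_right _ _
  have h0 : ∀ j, 0 < max (max (f j) (g j)) 1 := fun j => lt_of_lt_of_le one_pos (h1 j)
  have hH : 1 ≤ ∏ j, max (max (f j) (g j)) 1 := by
    calc (1 : ℝ) = ∏ j : ι, (1 : ℝ) := by simp
      _ ≤ _ := Finset.prod_le_prod (fun _ _ => zero_le_one) fun j _ => h1 j
  have hHpos : 0 < ∏ j, max (max (f j) (g j)) 1 := lt_of_lt_of_le one_pos hH
  have hsplit : ∀ h : ι → ℝ, ∏ j, h j = h i * ∏ j ∈ Finset.univ.erase i, h j := fun h =>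
    (Finset.mul_prod_erase Finset.univ h (Finset.mem_univ i)).symm
  have hE : 1 ≤ ∏ j ∈ Finset.univ.erase i, max (max (f j) (g j)) 1 := by
    calc (1 : ℝ) = ∏ j ∈ Finset.univ.erase i, (1 : ℝ) := by simp
      _ ≤ _ := Finset.prod_le_prod (fun _ _ => zero_le_one) fun j _ => h1 j
  refine ⟨hH, ?_, ?_⟩
  · rw [hsplit]
    calc f i ≤ max (max (f i) (g i)) 1 := (le_max_left _ _).trans (le_max_left _ _)
      _ = max (max (f i) (g i)) 1 * 1 := (mul_one _).symm
      _ ≤ _ := mul_le_mul_of_nonneg_left hE (h0 i).le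
  · rw [inv_le_comm₀ hHpos (hf i)]
    have h2 : (f i)⁻¹ = ∏ j ∈ Finset.univ.erase i, f j := by
      rw [hsplit f] at hfp
      rw [eq_comm]
      exact eq_inv_of_mul_eq_one_right hfp
    rw [h2]
    calc ∏ j ∈ Finset.univ.erase i, f j ≤ ∏ j ∈ Finset.univ.erase i, max (max (f j) (g j)) 1 :=
          Finset.prod_le_prod (fun j _ => (hf j).le) fun j _ =>
            (le_max_left _ _).trans (le_max_left _ _)
      _ = 1 * ∏ j ∈ Finset.univ.erase i, max (max (f j) (g j)) 1 := (one_mul _).symm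
      _ ≤ max (max (f i) (g i)) 1 * ∏ j ∈ Finset.univ.erase i, max (max (f j) (g j)) 1 :=
          mul_le_mul_of_nonneg_right (h1 i) (zero_le_one.trans hE)
      _ = _ := (hsplit fun j => max (max (f j) (g j)) 1).symm

/-- A proper subspace of `K²` contains at most one vector `(u, 1 - u)`. -/
lemma subsingleton_line {K : Type*} [Field K] (W : Submodule K (Fin 2 → K)) (hW : W ≠ ⊤) :
    {u : K | (![u, 1 - u] : Fin 2 → K) ∈ W}.Subsingleton := by
  intro u hu v hv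
  by_contra hne
  apply hW
  rw [eq_top_iff]
  intro z _
  have hd : u - v ≠ 0 := sub_ne_zero.2 hne
  have h1 : (![1, -1] : Fin 2 → K) ∈ W := by
    have h2 := W.smul_mem (u - v)⁻¹ (W.sub_mem hu hv)
    have h3 : (u - v)⁻¹ • (![u, 1 - u] - ![v, 1 - v] : Fin 2 → K) = ![1, -1] := by
      funext i
      fin_cases i
      · simp [hd]
      · simp only [Fin.mk_one, Pi.smul_apply, Pi.sub_apply, Matrix.cons_val_one,
          Matrix.cons_val_fin_one, smul_eq_mul]
        field_simp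
        ring
    rw [h3] at h2
    exact h2
  have h4 : (![0, 1] : Fin 2 → K) ∈ W := by
    have h5 := W.sub_mem hu (W.smul_mem u h1)
    have h6 : (![u, 1 - u] : Fin 2 → K) - u • ![1, -1] = ![0, 1] := by
      funext i
      fin_cases i
      · simp
      · simp
    rw [h6] at h5
    exact h5
  have h7 : (![1, 0] : Fin 2 → K) ∈ W := by
    have h8 := W.add_mem h1 h4
    have h9 : (![1, -1] : Fin 2 → K) + ![0, 1] = ![1, 0] := by
      funext i
      fin_cases i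
      · simp
      · simp
    rw [h9] at h8
    exact h8
  have h10 : z = z 0 • ![1, 0] + z 1 • ![0, 1] := by
    funext i
    fin_cases i
    · simp
    · simp
  rw [h10]
  exact W.add_mem (W.smul_mem _ h7) (W.smul_mem _ h4)

theorem sunit_aux {K : Type} [Field K] [NumberField K] {T : Type} [Fintype T] {p : T → ℕ}
    [∀ t, Fact (p t).Prime] (hp : Function.Injective p) :
    {u : K | u ≠ 0 ∧ 1 - u ≠ 0 ∧ (∃ n : ℕ, IsIntegral ℤ ((pprod p : K) ^ n * u)) ∧
      (∃ n : ℕ, IsIntegral ℤ ((pprod p : K) ^ n * u⁻¹)) ∧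
      (∃ n : ℕ, IsIntegral ℤ ((pprod p : K) ^ n * (1 - u))) ∧
      ∃ n : ℕ, IsIntegral ℤ ((pprod p : K) ^ n * (1 - u)⁻¹)}.Finite := by
  classical
  have hS := fun (c : (K →+* ℂ) → Fin 3) (c' : ∀ t, (K →+* FF K (p t)) → Fin 3) =>
    subspaceT (K := K) hp 2 le_rfl 1 1 one_pos (fun σ => pat ℂ (c σ))
      (fun t σ => pat (FF K (p t)) (c' t σ)) (fun σ i j => pat_alg ℂ (c σ) i j)
      (fun t σ i j => pat_alg (FF K (p t)) (c' t σ) i j) (fun σ => pat_det_ne ℂ (c σ))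
      (fun t σ => pat_det_ne (FF K (p t)) (c' t σ))
  choose 𝒲 h𝒲 hmain using hS
  have hfin : (⋃ c : (K →+* ℂ) → Fin 3, ⋃ c' : (∀ t, (K →+* FF K (p t)) → Fin 3),
      ⋃ W ∈ (𝒲 c c' : Set (Submodule K (Fin 2 → K))),
        {u : K | (![u, 1 - u] : Fin 2 → K) ∈ W}).Finite := by
    refine Set.finite_iUnion fun c => Set.finite_iUnion fun c' => ?_
    refine Set.Finite.biUnion (𝒲 c c').finite_toSet fun W hW => ?_
    exact (subsingleton_line W (h𝒲 c c' W hW)).finite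
  refine hfin.subset ?_
  rintro u ⟨hu0, hv0, hu1, hu2, hv1, hv2⟩
  have hpu := prod_one (L := K) (p := p) hp u hu0 hu1 hu2
  have hpv := prod_one (L := K) (p := p) hp (1 - u) hv0 hv1 hv2
  -- all the embeddings
  let I : Type := (K →+* ℂ) ⊕ (Σ t, K →+* FF K (p t))
  let nm : K → I → ℝ := fun z => Sum.elim (fun σ => ‖σ z‖) (fun x => ‖x.2 z‖)
  have hnm : ∀ (h1 : (K →+* ℂ) → ℝ) (h2 : (Σ t, K →+* FF K (p t)) → ℝ),
      ∏ x : I, Sum.elim h1 h2 x = (∏ σ, h1 σ) * ∏ t, ∏ σ, h2 ⟨t, σ⟩ := by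
    intro h1 h2
    rw [Fintype.prod_sum_type, Fintype.prod_sigma]
    rfl
  have hnpos : ∀ z : K, z ≠ 0 → ∀ x, 0 < nm z x := by
    intro z hz x
    rcases x with σ | ⟨t, σ⟩
    · exact norm_pos_iff.2 ((map_ne_zero σ).2 hz)
    · exact norm_pos_iff.2 ((map_ne_zero σ).2 hz)
  have hnu : ∏ x, nm u x = 1 := by
    rw [← hpu]
    exact hnm _ _
  have hnv : ∏ x, nm (1 - u) x = 1 := by
    rw [← hpv]
    exact hnm _ _
  set H : ℝ := ∏ x, max (max (nm u x) (nm (1 - u) x)) 1 with hH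
  have hsz := fun x => sizes (nm u) (nm (1 - u)) (hnpos u hu0) hnu x
  have hsz' : ∀ x, 1 ≤ H ∧ nm (1 - u) x ≤ H ∧ H⁻¹ ≤ nm (1 - u) x := by
    intro x
    have h1 := sizes (nm (1 - u)) (nm u) (hnpos _ hv0) hnv x
    have h2 : ∏ x, max (max (nm (1 - u) x) (nm u x)) 1 = H := by
      rw [hH]
      exact Finset.prod_congr rfl fun x _ => by rw [max_comm (nm (1 - u) x)]
    rw [h2] at h1
    exact h1
  have hH1 : 1 ≤ H := by
    calc (1 : ℝ) = ∏ x : I, (1 : ℝ) := by simp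
      _ ≤ _ := Finset.prod_le_prod (fun _ _ => zero_le_one) fun j _ => le_max_right _ _
  have hHpos : 0 < H := lt_of_lt_of_le one_pos hH1
  -- the choices
  have hc := fun σ : K →+* ℂ => exists_pat (fun j => σ ((![u, 1 - u] : Fin 2 → K) j))
    (by simp)
  have hc' := fun (t : T) (σ : K →+* FF K (p t)) =>
    exists_pat (fun j => σ ((![u, 1 - u] : Fin 2 → K) j)) (by simp)
  choose c hc1 hc2 using hc
  choose c' hc1' hc2' using hc'
  obtain ⟨W, hW, hyW⟩ := hmain c c' H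
    (fun σ i => ‖∑ j, pat ℂ (c σ) i j * σ ((![u, 1 - u] : Fin 2 → K) j)‖)
    (fun t σ i => ‖∑ j, pat (FF K (p t)) (c' t σ) i j * σ ((![u, 1 - u] : Fin 2 → K) j)‖)
    hH1 (by
      intro σ i
      rw [Real.rpow_neg_one, Real.rpow_one]
      rcases hc2 σ i with h | h | h
      · rw [h]
        exact ⟨(hsz (Sum.inl σ)).2.2, (hsz (Sum.inl σ)).2.1⟩
      · rw [h]
        exact ⟨(hsz' (Sum.inl σ)).2.2, (hsz' (Sum.inl σ)).2.1⟩
      · rw [h, norm_one]
        exact ⟨inv_le_one_of_one_le₀ hH1, hH1⟩) (by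
      intro t σ i
      rw [Real.rpow_neg_one, Real.rpow_one]
      rcases hc2' t σ i with h | h | h
      · rw [h]
        exact ⟨(hsz (Sum.inr ⟨t, σ⟩)).2.2, (hsz (Sum.inr ⟨t, σ⟩)).2.1⟩
      · rw [h]
        exact ⟨(hsz' (Sum.inr ⟨t, σ⟩)).2.2, (hsz' (Sum.inr ⟨t, σ⟩)).2.1⟩
      · rw [h, norm_one]
        exact ⟨inv_le_one_of_one_le₀ hH1, hH1⟩) (by
      rw [Real.rpow_neg_one]
      rw [← hnm (fun σ => ∏ i, ‖∑ j, pat ℂ (c σ) i j * σ ((![u, 1 - u] : Fin 2 → K) j)‖)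
        (fun x => ∏ i, ‖∑ j, pat (FF K (p x.1)) (c' x.1 x.2) i j *
          x.2 ((![u, 1 - u] : Fin 2 → K) j)‖)]
      have h3 : ∏ x : I, Sum.elim
          (fun σ : K →+* ℂ => ∏ i, ‖∑ j, pat ℂ (c σ) i j * σ ((![u, 1 - u] : Fin 2 → K) j)‖)
          (fun x : Σ t, K →+* FF K (p t) => ∏ i, ‖∑ j, pat (FF K (p x.1)) (c' x.1 x.2) i j *
            x.2 ((![u, 1 - u] : Fin 2 → K) j)‖) x * max (max (nm u x) (nm (1 - u) x)) 1 = 1 := by
        have h4 : ∏ x : I, nm u x * nm (1 - u) x = 1 := by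
          rw [Finset.prod_mul_distrib, hnu, hnv, one_mul]
        refine Eq.trans (Finset.prod_congr rfl fun x _ => ?_) h4
        rcases x with σ | ⟨t, σ⟩
        · exact hc1 σ
        · exact hc1' t σ
      rw [Finset.prod_mul_distrib] at h3
      exact (eq_inv_of_mul_eq_one_left h3).le) ![u, 1 - u] (by
      intro k
      fin_cases k
      · exact hu1
      · exact hv1) (fun σ i => le_rfl) (fun t σ i => le_rfl)
  simp only [Set.mem_iUnion]
  exact ⟨c, c', W, hW, hyW⟩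

/-- The primes that divide `n0`. -/
abbrev PT (n0 : ℕ) : Type := {q // q ∈ n0.primeFactors}

instance factPT (n0 : ℕ) (t : PT n0) : Fact (Nat.Prime ((fun t : PT n0 => (t : ℕ)) t)) :=
  ⟨Nat.prime_of_mem_primeFactors t.2⟩

lemma dvd_pprod (n0 : ℕ) (hn0 : n0 ≠ 0) : n0 ∣ pprod (fun t : PT n0 => (t : ℕ)) ^ n0 := by
  have h1 : pprod (fun t : PT n0 => (t : ℕ)) = ∏ q ∈ n0.primeFactors, q := by
    change ∏ t : PT n0, (t : ℕ) = _
    exact Finset.prod_coe_sort n0.primeFactors (fun q => q)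
  rw [h1]
  conv_lhs => rw [← Nat.prod_factorization_pow_eq_self hn0]
  rw [← Finset.prod_pow]
  change ∏ q ∈ n0.factorization.support, q ^ n0.factorization q ∣ _
  rw [Nat.support_factorization]
  refine Finset.prod_dvd_prod_of_dvd _ _ fun q hq => ?_
  refine pow_dvd_pow q ?_
  have hq' := Nat.prime_of_mem_primeFactors hq
  have h2 : q ^ n0.factorization q ∣ n0 := Nat.ordProj_dvd n0 q
  have h3 : q ^ n0.factorization q ≤ n0 := Nat.le_of_dvd (Nat.pos_of_ne_zero hn0) h2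
  exact (Nat.lt_pow_self hq'.one_lt).le.trans h3

lemma integral_P {L : Type} [Field L] [NumberField L] (n0 : ℕ) (hn0 : n0 ≠ 0)
    (z : L) (h : ∃ k : ℕ, IsIntegral ℤ ((n0 : L) ^ k * z)) :
    ∃ k' : ℕ, IsIntegral ℤ ((pprod (fun t : PT n0 => (t : ℕ)) : L) ^ k' * z) := by
  obtain ⟨k, h⟩ := h
  obtain ⟨c, hc⟩ := dvd_pprod n0 hn0
  refine ⟨n0 * k, ?_⟩
  have h1 : ((pprod (fun t : PT n0 => (t : ℕ)) : ℕ) : L) ^ (n0 * k) * z =
      (c : L) ^ k * ((n0 : L) ^ k * z) := by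
    have h2 : ((pprod (fun t : PT n0 => (t : ℕ)) : ℕ) : L) ^ n0 = (n0 : L) * c := by
      exact_mod_cast congrArg (Nat.cast (R := L)) hc
    rw [pow_mul, h2, mul_pow]
    ring
  rw [h1]
  exact ((map_natCast (algebraMap ℤ L) c ▸ isIntegral_algebraMap :
    IsIntegral ℤ ((c : ℕ) : L)).pow k).mul h

/-- The S-unit equation `u + v = 1` over a number field has finitely many solutions. -/
theorem sunit_finite {K : Type} [Field K] [NumberField K] (M : ℕ) (hM : M ≠ 0) :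
    {u : K | u ≠ 0 ∧ 1 - u ≠ 0 ∧ (∃ n : ℕ, IsIntegral ℤ ((M : K) ^ n * u)) ∧
      (∃ n : ℕ, IsIntegral ℤ ((M : K) ^ n * u⁻¹)) ∧
      (∃ n : ℕ, IsIntegral ℤ ((M : K) ^ n * (1 - u))) ∧
      ∃ n : ℕ, IsIntegral ℤ ((M : K) ^ n * (1 - u)⁻¹)}.Finite := by
  refine (sunit_aux (K := K) (p := fun t : PT M => (t : ℕ)) Subtype.val_injective).subset ?_
  rintro u ⟨h1, h2, h3, h4, h5, h6⟩
  exact ⟨h1, h2, integral_P M hM _ h3, integral_P M hM _ h4, integral_P M hM _ h5,
    integral_P M hM _ h6⟩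

end Pool.Agent.Helper74.LG
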