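import Mathlib

/-!
# Seidenberg's theorem on derivations and integral closure

If `A` is a Noetherian domain containing `ℚ` and `d` is a derivation of its field of fractions with
`d A ⊆ A`, then `d` maps the integral closure of `A` to itself.
-/

set_option autoImplicit false

open scoped nonZeroDivisors

namespace Pool.Agent.Helper74.LG

section ops

variable {K : Type*} [CommRing K]

/-- Multiplication by `x`. -/
def mulOp (x : K) : Module.End ℤ K := LinearMap.mulLeft ℤ x

/-- The commutator `P ↦ P x - x P`. -/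
def ad (x : K) (P : Module.End ℤ K) : Module.End ℤ K := P * mulOp x - mulOp x * P

theorem ad_apply (x : K) (P : Module.End ℤ K) (f : K) : ad x P f = P (x * f) - x * P f := by
  simp [ad, mulOp]

theorem ad_zero (x : K) : ad x 0 = 0 := by
  simp [ad]

theorem ad_add (x : K) (P Q : Module.End ℤ K) : ad x (P + Q) = ad x P + ad x Q := by
  simp only [ad, add_mul, mul_add]
  abel

theorem ad_nsmul (x : K) (k : ℕ) (P : Module.End ℤ K) : ad x (k • P) = k • ad x P := by
  simp only [ad, smul_mul_assoc, mul_smul_comm, smul_sub]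

theorem ad_mulOp_mul (x y : K) (P : Module.End ℤ K) : ad x (mulOp y * P) = mulOp y * ad x P := by
  ext f
  simp only [ad_apply, Module.End.mul_apply, mulOp, LinearMap.mulLeft_apply]
  ring

variable (d : Derivation ℤ K K)

/-- The derivation as an additive operator. -/
def dOp : Module.End ℤ K := (d : K →ₗ[ℤ] K)

theorem dOp_apply (f : K) : dOp d f = d f := rfl

theorem ad_dOp_mul (x : K) (P : Module.End ℤ K) :
    ad x (dOp d * P) = dOp d * ad x P + mulOp (d x) * P := by
  ext f
  simp only [ad_apply, Module.End.mul_apply, mulOp, LinearMap.mulLeft_apply, dOp_apply,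
    LinearMap.add_apply, map_sub, Derivation.leibniz, smul_eq_mul]
  ring

theorem ad_iter_dOp_mul (x : K) (P : Module.End ℤ K) (k : ℕ) :
    (ad x)^[k + 1] (dOp d * P) =
      dOp d * (ad x)^[k + 1] P + (k + 1) • (mulOp (d x) * (ad x)^[k] P) := by
  induction k with
  | zero => simp [ad_dOp_mul]
  | succ k ih =>
    rw [Function.iterate_succ_apply', ih, ad_add, ad_nsmul, ad_mulOp_mul, ad_dOp_mul,
      ← Function.iterate_succ_apply' (ad x) (k + 1), ← Function.iterate_succ_apply' (ad x) k,
      succ_nsmul (mulOp (d x) * (ad x)^[k + 1] P) (k + 1)]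
    abel

theorem ad_iter_pow (x : K) (n : ℕ) :
    (ad x)^[n] (dOp d ^ n) = n.factorial • mulOp (d x) ^ n ∧ (ad x)^[n + 1] (dOp d ^ n) = 0 := by
  induction n with
  | zero =>
    refine ⟨by simp, ?_⟩
    ext f
    simp [ad_apply]
  | succ n ih =>
    rw [pow_succ' (dOp d) n]
    constructor
    · rw [ad_iter_dOp_mul, ih.1, ih.2, mul_zero, zero_add, mul_smul_comm, smul_smul, ← pow_succ',
        Nat.factorial_succ]
    · rw [ad_iter_dOp_mul, Function.iterate_succ_apply', ih.2, ad_zero, mul_zero, mul_zero,
        smul_zero, add_zero]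

end ops

section mem

variable {A K : Type*} [CommRing A] [CommRing K] [Algebra A K]

/-- The property which is stable under commutators with `x`. -/
def Good (A : Type*) {K : Type*} [CommRing A] [CommRing K] [Algebra A K] (c x : K)
    (P : Module.End ℤ K) : Prop :=
  ∀ i k : ℕ, c * x ^ i * P (x ^ k * c) ∈ (algebraMap A K).range

theorem Good.ad {c x : K} {P : Module.End ℤ K} (h : Good A c x P) : Good A c x (ad x P) := by
  intro i k
  have h1 := h i (k + 1)
  have h2 := h (i + 1) k
  have e : c * x ^ i * (Helper74.LG.ad x P) (x ^ k * c) =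
      c * x ^ i * P (x ^ (k + 1) * c) - c * x ^ (i + 1) * P (x ^ k * c) := by
    rw [ad_apply, pow_succ' x k, mul_assoc x]
    ring
  rw [e]
  exact sub_mem h1 h2

theorem Good.iter {c x : K} {P : Module.End ℤ K} (h : Good A c x P) (n : ℕ) :
    Good A c x ((Helper74.LG.ad x)^[n] P) := by
  induction n with
  | zero => exact h
  | succ n ih =>
    rw [Function.iterate_succ_apply']
    exact ih.ad

theorem dOp_pow_mem (d : Derivation ℤ K K)
    (hd : ∀ a : A, d (algebraMap A K a) ∈ (algebraMap A K).range) {f : K}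
    (hf : f ∈ (algebraMap A K).range) (n : ℕ) : (dOp d ^ n) f ∈ (algebraMap A K).range := by
  induction n with
  | zero => simpa using hf
  | succ n ih =>
    rw [pow_succ', Module.End.mul_apply, dOp_apply]
    obtain ⟨a, ha⟩ := ih
    rw [← ha]
    exact hd a

/-- If `c x ^ n ∈ A` for all `n` then `c ^ 2 (d x) ^ n ∈ A` for all `n`. -/
theorem sq_mul_mem [Algebra ℚ A] (d : Derivation ℤ K K)
    (hd : ∀ a : A, d (algebraMap A K a) ∈ (algebraMap A K).range) {c x : K}
    (h : ∀ n : ℕ, c * x ^ n ∈ (algebraMap A K).range) (n : ℕ) :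
    c ^ 2 * d x ^ n ∈ (algebraMap A K).range := by
  have h1 : Good A c x (dOp d ^ n) := fun i k => by
    refine mul_mem (h i) (dOp_pow_mem d hd ?_ n)
    rw [mul_comm]
    exact h k
  have h2 := h1.iter n 0 0
  rw [(ad_iter_pow d x n).1, pow_zero, mul_one, one_mul] at h2
  have e : (n.factorial • mulOp (d x) ^ n) c = (n.factorial : K) * (d x ^ n * c) := by
    have e1 : ∀ (m : ℕ) (f : K), (mulOp (d x) ^ m) f = d x ^ m * f := by
      intro m
      induction m with
      | zero => intro f; simp
      | succ m ih =>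
        intro f
        rw [pow_succ', Module.End.mul_apply, ih, mulOp, LinearMap.mulLeft_apply, pow_succ']
        ring
    rw [LinearMap.smul_apply, e1, nsmul_eq_mul]
  rw [e] at h2
  have h3 : algebraMap A K (algebraMap ℚ A ((n.factorial : ℚ)⁻¹)) *
      (c * ((n.factorial : K) * (d x ^ n * c))) ∈ (algebraMap A K).range :=
    mul_mem ⟨_, rfl⟩ h2
  have h4 : algebraMap A K (algebraMap ℚ A ((n.factorial : ℚ)⁻¹)) * (n.factorial : K) = 1 := by
    rw [← map_natCast (algebraMap A K), ← map_natCast (algebraMap ℚ A), ← map_mul, ← map_mul,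
      inv_mul_cancel₀ (by exact_mod_cast n.factorial_ne_zero), map_one, map_one]
  have h5 : algebraMap A K (algebraMap ℚ A ((n.factorial : ℚ)⁻¹)) *
      (c * ((n.factorial : K) * (d x ^ n * c))) = c ^ 2 * d x ^ n := by
    calc _ = (algebraMap A K (algebraMap ℚ A ((n.factorial : ℚ)⁻¹)) * (n.factorial : K)) *
          (c ^ 2 * d x ^ n) := by ring
      _ = _ := by rw [h4, one_mul]
  rwa [h5] at h3

end mem

/-- **Seidenberg's theorem.** -/
theorem seidenberg {A K : Type*} [CommRing A] [IsDomain A] [IsNoetherianRing A] [Algebra ℚ A]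
    [Field K] [Algebra A K] [IsFractionRing A K] (d : Derivation ℤ K K)
    (hd : ∀ a : A, d (algebraMap A K a) ∈ (algebraMap A K).range) {x : K} (hx : IsIntegral A x) :
    IsIntegral A (d x) := by
  rw [← isAlmostIntegral_iff_isIntegral] at hx ⊢
  obtain ⟨r, hr, h⟩ := hx
  refine ⟨r ^ 2, pow_mem hr 2, fun n => ?_⟩
  have := sq_mul_mem d hd (c := algebraMap A K r) (x := x)
    (fun n => by rw [← Algebra.smul_def]; exact h n) n
  rwa [← map_pow, ← Algebra.smul_def] at this

end Pool.Agent.Helper74.LG
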