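import Pool.Agent.Helper19.UE.NumberField
import Pool.Agent.Helper8.UnitSep

/-!
# The unit equation over finitely generated domains of characteristic zero (Lang)
-/

set_option autoImplicit false

namespace Pool.Agent.Helper74.LG

open NumberField

/-- The elements of `𝓞 k [1/M]` in `k`. -/
lemma integral_of_away {k : Type} [Field k] [NumberField k] (M : ℕ)
    (ψ : Localization.Away ((M : ℕ) : 𝓞 k) →+* k)
    (hψ : ∀ a : 𝓞 k, ψ (algebraMap (𝓞 k) _ a) = (a : k))
    (z : Localization.Away ((M : ℕ) : 𝓞 k)) : ∃ n : ℕ, IsIntegral ℤ ((M : k) ^ n * ψ z) := by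
  obtain ⟨⟨a, ⟨_, n, rfl⟩⟩, hz⟩ := IsLocalization.surj (Submonoid.powers ((M : ℕ) : 𝓞 k)) z
  refine ⟨n, ?_⟩
  have h1 := congrArg ψ hz
  simp only [map_mul, hψ, map_pow, map_natCast] at h1
  have h2 : ((M : k) ^ n * ψ z) = (a : k) := by
    rw [mul_comm, ← h1]
  rw [h2]
  exact a.isIntegral_coe

theorem away_units_finite (k : Type) [Field k] [NumberField k] (M : ℕ) (hM : M ≠ 0) :
    {u : Localization.Away ((M : ℕ) : 𝓞 k) | IsUnit u ∧ IsUnit (1 - u)}.Finite := by
  have hM' : ((M : ℕ) : 𝓞 k) ≠ 0 := by exact_mod_cast hM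
  let ψ : Localization.Away ((M : ℕ) : 𝓞 k) →+* k :=
    IsLocalization.Away.lift ((M : ℕ) : 𝓞 k) (g := algebraMap (𝓞 k) k)
      (isUnit_iff_ne_zero.2 (by simpa using hM'))
  have hψ : ∀ a : 𝓞 k, ψ (algebraMap (𝓞 k) _ a) = (a : k) := fun a =>
    IsLocalization.Away.lift_eq _ _ a
  have hinj : Function.Injective ψ := by
    rw [injective_iff_map_eq_zero]
    intro z hz
    obtain ⟨⟨a, ⟨_, n, rfl⟩⟩, h1⟩ := IsLocalization.surj (Submonoid.powers ((M : ℕ) : 𝓞 k)) z
    have h2 := congrArg ψ h1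
    simp only [map_mul, hz, zero_mul, hψ] at h2
    have h3 : a = 0 := by
      apply NumberField.RingOfIntegers.coe_injective
      rw [map_zero]
      exact h2.symm
    simp only [h3, map_zero] at h1
    have h4 : IsUnit (algebraMap (𝓞 k) (Localization.Away ((M : ℕ) : 𝓞 k))
        (((M : ℕ) : 𝓞 k) ^ n)) :=
      IsLocalization.map_units (M := Submonoid.powers ((M : ℕ) : 𝓞 k)) _ ⟨_, n, rfl⟩
    exact (h4.mul_left_eq_zero).1 h1
  refine Set.Finite.of_finite_image ((Pool.Agent.Helper19.UE.sunit_finite (K := k) M hM).subset ?_) hinj.injOn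
  rintro _ ⟨u, ⟨h1, h2⟩, rfl⟩
  have key : ∀ z : Localization.Away ((M : ℕ) : 𝓞 k), IsUnit z → ψ z ≠ 0 ∧
      ∃ n : ℕ, IsIntegral ℤ ((M : k) ^ n * (ψ z)⁻¹) := by
    rintro _ ⟨z, rfl⟩
    have h3 : ψ (z : Localization.Away ((M : ℕ) : 𝓞 k)) *
        ψ ((z⁻¹ : (Localization.Away ((M : ℕ) : 𝓞 k))ˣ) : Localization.Away ((M : ℕ) : 𝓞 k)) = 1 := by
      rw [← map_mul, Units.mul_inv, map_one]
    refine ⟨left_ne_zero_of_mul_eq_one h3, ?_⟩
    rw [← eq_inv_of_mul_eq_one_right h3]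
    exact integral_of_away M ψ hψ _
  have h4 := key u h1
  have h5 := key (1 - u) h2
  rw [map_sub, map_one] at h5
  have h6 := integral_of_away M ψ hψ u
  have h7 := integral_of_away M ψ hψ (1 - u)
  rw [map_sub, map_one] at h7
  exact ⟨h4.1, h5.1, h6, h4.2, h7, h5.2⟩

/-- **Lang's unit theorem**: the equation `u + v = 1` has finitely many solutions in units of a
finitely generated domain of characteristic zero. -/
theorem units_finite (R : Type) [CommRing R] [IsDomain R] [Algebra.FiniteType ℤ R] [CharZero R] :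
    {u : R | IsUnit u ∧ IsUnit (1 - u)}.Finite := by
  obtain ⟨I, hI, k, hk, hnf, M, hM, φ, hφ⟩ := Pool.Agent.Helper8.UnitSep.exists_family R
  let Φ : R → ∀ i, Localization.Away ((M i : ℕ) : 𝓞 (k i)) := fun u i => φ i u
  have hfin : (Set.univ.pi fun i => {u : Localization.Away ((M i : ℕ) : 𝓞 (k i)) |
      IsUnit u ∧ IsUnit (1 - u)}).Finite :=
    Set.Finite.pi fun i => away_units_finite (k i) (M i) (hM i)
  refine Set.Finite.of_finite_image (f := Φ) (hfin.subset ?_) ?_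
  · rintro _ ⟨u, ⟨h1, h2⟩, rfl⟩ i _
    refine ⟨h1.map (φ i), ?_⟩
    have h3 := h2.map (φ i)
    rw [map_sub, map_one] at h3
    exact h3
  · rintro u ⟨⟨x, hx⟩, -⟩ v ⟨⟨y, hy⟩, -⟩ huv
    have h1 : x * y⁻¹ = 1 := by
      apply hφ
      intro i
      have h2 : φ i u = φ i v := congrFun huv i
      rw [← hx, ← hy] at h2
      have h3 : φ i ((x * y⁻¹ : Rˣ) : R) = φ i (x : R) * φ i ((y⁻¹ : Rˣ) : R) := by
        rw [Units.val_mul, map_mul]
      rw [h3, h2, ← map_mul, Units.mul_inv, map_one]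
    have h4 : x = y := mul_inv_eq_one.1 h1
    rw [← hx, ← hy, h4]

end Pool.Agent.Helper74.LG
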